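import Pool.Agent.Q102.CD.Circ
import Pool.Agent.Y347.CO.Rel

set_option autoImplicit false

/-!
# Boundaries of sets of words decided by circuits
-/

namespace Pool.Agent.Q102.CD

open Finset Function
open Pool.Agent

section count
variable {α : Type} [Fintype α] {n : ℕ}

theorem card_coord (i : Fin n) (P : α → Prop) [DecidablePred P] :
    (univ.filter fun w : Fin n → α => P (w i)).card * Fintype.card α =
      Fintype.card α ^ n * (univ.filter P).card := by
  classical
  have e : (univ.filter fun w : Fin n → α => P (w i)) =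
      Fintype.piFinset (fun j => if j = i then univ.filter P else univ) := by
    ext w
    rw [mem_filter, Fintype.mem_piFinset]
    constructor
    · rintro ⟨-, h⟩ j
      split_ifs with hj
      · subst hj; exact mem_filter.2 ⟨mem_univ _, h⟩
      · exact mem_univ _
    · intro h
      have := h i
      rw [if_pos rfl, mem_filter] at this
      exact ⟨mem_univ _, this.2⟩
  rw [e, Fintype.card_piFinset, ← mul_prod_erase univ _ (mem_univ i), if_pos rfl]
  have h1 : ∏ j ∈ univ.erase i, (if j = i then univ.filter P else univ : Finset α).card =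
      Fintype.card α ^ (n - 1) := by
    rw [prod_congr rfl (fun j hj => by rw [if_neg (ne_of_mem_erase hj)]), prod_const,
      card_erase_of_mem (mem_univ i), card_univ, card_univ, Fintype.card_fin]
  rw [h1]
  have hn : n = (n - 1) + 1 := by
    have := i.pos
    omega
  conv_rhs => rw [hn, pow_succ]
  ring

end count

section words
variable {q n : ℕ} [NeZero q]

/-- the points of a cube -/
def pt (δ : ZMod q) (u : Fin n → ZMod q) (b : Fin n → Bool) : Fin n → ZMod q :=
  fun i => (fun (i : Fin n) (c : Bool) => u i + (if c then δ else 0)) i (b i)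

theorem pt_inj (δ : ZMod q) (b : Fin n → Bool) : Bijective fun u : Fin n → ZMod q => pt δ u b := by
  refine Finite.injective_iff_bijective.1 fun u v h => ?_
  funext i
  have := congrFun h i
  exact add_right_cancel this

omit [NeZero q] in
theorem pt_update (δ : ZMod q) (u : Fin n → ZMod q) (b : Fin n → Bool) (i : Fin n)
    (hb : b i = false) : pt δ u (update b i (!(b i))) = update (pt δ u b) i (pt δ u b i + δ) := by
  funext j
  rcases eq_or_ne j i with rfl | hj
  · simp [pt, hb]
  · simp [pt, hj]

/-- the number of boundary edges with direction `i` and length `δ` -/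
def bE (F : Finset (Fin n → ZMod q)) (i : Fin n) (δ : ZMod q) : ℕ :=
  (F.filter fun x => update x i (x i + δ) ∉ F).card

/-- the number of boundary edges with direction `i` -/
def bB (F : Finset (Fin n → ZMod q)) (i : Fin n) : ℕ :=
  ∑ z ∈ F, (univ.filter fun c : ZMod q => update z i c ∉ F).card

theorem bB_eq (F : Finset (Fin n → ZMod q)) (i : Fin n) : bB F i = ∑ δ : ZMod q, bE F i δ := by
  classical
  have h1 : ∀ z : Fin n → ZMod q, (univ.filter fun c : ZMod q => update z i c ∉ F).card =
      ∑ δ : ZMod q, if update z i (z i + δ) ∉ F then 1 else 0 := by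
    intro z
    rw [← card_filter]
    refine card_bij' (fun c _ => c - z i) (fun δ _ => z i + δ) ?_ ?_ ?_ ?_
    · intro c hc
      rw [mem_filter] at hc ⊢
      refine ⟨mem_univ _, ?_⟩
      rw [add_sub_cancel]
      exact hc.2
    · intro c hc
      rw [mem_filter] at hc ⊢
      exact ⟨mem_univ _, hc.2⟩
    · intro c _
      exact add_sub_cancel _ _
    · intro c _
      exact add_sub_cancel_left _ _
  unfold bB bE
  simp only [h1, card_filter]
  rw [sum_comm]

/-- the number of boundary edges of a set decided by a circuit -/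
theorem sum_bE {w ℓ d : ℕ} (C : Circuit (ZMod q) w n) (hw : 1 ≤ w) (hℓ : 1 ≤ ℓ)
    (hs : n + Nat.card C.Node ≤ 2 ^ ℓ) (hd : ∀ v, C.depth v ≤ d) (o : C.Node)
    (F : Finset (Fin n → ZMod q)) (hF : ∀ x, x ∈ F ↔ C.val o x = true) (D : Finset (Fin n))
    {κ : ℝ} (hκ : 0 ≤ κ) (δ : ZMod q) :
    (∑ i ∈ D, (bE F i δ : ℝ)) ≤ 2 * κ * F.card +
      2 * D.card * ((q : ℝ) ^ n * (2 : ℝ) ^ (2 * ℓ + 4 - κ / ((d + 1 : ℕ) * Y347.CO.KK (d + 1) w ℓ))) := by
  classical
  set R : ℝ := (2 : ℝ) ^ (2 * ℓ + 4 - κ / ((d + 1 : ℕ) * Y347.CO.KK (d + 1) w ℓ)) with hR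
  -- the circuits on the cubes
  have hcube : ∀ u : Fin n → ZMod q,
      ∑ b ∈ univ.filter (fun b => pt δ u b ∈ F),
        (((Y347.CO.sens (fun b => C.val o (pt δ u b)) b) ∩ D).card : ℝ) ≤
      κ * (univ.filter (fun b => pt δ u b ∈ F)).card + D.card * (2 ^ n * R) := by
    intro u
    have hfin := C.finite
    have h := Y347.CO.sum_sens_le Y220.CO.done
      (subst C hw (fun (i : Fin n) (c : Bool) => u i + (if c then δ else 0))) (ℓ := ℓ) (d := d + 1)
      rfl hℓ hw (by omega) (by
        refine le_trans (le_of_eq ?_) hs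
        show Nat.card (Fin n ⊕ C.Node) = _
        rw [Nat.card_sum, Nat.card_eq_fintype_card, Fintype.card_fin])
      (by
        rintro (i | v)
        · exact Nat.zero_le _
        · exact Nat.succ_le_succ (hd v))
      (Sum.inr o) D (univ.filter (fun b => pt δ u b ∈ F)) hκ
    exact h
  -- lower bound
  have hlow : ∀ i ∈ D, (2 : ℝ) ^ n * bE F i δ ≤ 2 * ∑ u : Fin n → ZMod q,
      ∑ b ∈ univ.filter (fun b => pt δ u b ∈ F),
        (if i ∈ Y347.CO.sens (fun b => C.val o (pt δ u b)) b then (1 : ℝ) else 0) := by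
    intro i _
    have h1 : ∑ b ∈ univ.filter (fun b : Fin n → Bool => b i = false), (bE F i δ : ℝ) ≤
        ∑ b : Fin n → Bool, ∑ u : Fin n → ZMod q, if pt δ u b ∈ F ∧
          i ∈ Y347.CO.sens (fun b => C.val o (pt δ u b)) b then (1 : ℝ) else 0 := by
      refine le_trans ?_ (sum_le_sum_of_subset_of_nonneg
        (subset_univ (univ.filter fun b : Fin n → Bool => b i = false))
        (fun b _ _ => sum_nonneg fun u _ => by split_ifs <;> norm_num))
      apply sum_le_sum
      intro b hb
      have hb' : b i = false := (mem_filter.1 hb).2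
      rw [bE, card_filter]
      push_cast
      have e := (Equiv.ofBijective _ (pt_inj δ b)).sum_comp
        (fun x => if x ∈ F ∧ update x i (x i + δ) ∉ F then (1 : ℝ) else 0)
      have e2 : ∑ x ∈ F, (if update x i (x i + δ) ∉ F then (1 : ℝ) else 0) =
          ∑ x : Fin n → ZMod q, (if x ∈ F ∧ update x i (x i + δ) ∉ F then (1 : ℝ) else 0) := by
        simp only [ite_and]
        rw [sum_ite_mem, univ_inter]
      rw [e2, ← e]
      apply sum_le_sum
      intro u _
      show (if pt δ u b ∈ F ∧ update (pt δ u b) i (pt δ u b i + δ) ∉ F then (1 : ℝ) else 0) ≤ _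
      split_ifs with h3 h4
      · exact le_refl _
      · exfalso
        apply h4
        refine ⟨h3.1, ?_⟩
        rw [Y347.CO.sens, mem_filter]
        refine ⟨mem_univ _, ?_⟩
        have h5 : C.val o (pt δ u b) = true := (hF _).1 h3.1
        rw [pt_update δ u b i hb', h5]
        intro h6
        exact h3.2 ((hF _).2 h6)
      · norm_num
      · exact le_refl _
    have h2 := card_coord (α := Bool) i (fun c => c = false)
    have h2a : ((univ : Finset Bool).filter fun c => c = false).card = 1 := by decide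
    rw [Fintype.card_bool, h2a, mul_one] at h2
    have h2' : ((univ.filter fun w : Fin n → Bool => w i = false).card : ℝ) * 2 = 2 ^ n := by
      exact_mod_cast h2
    rw [sum_const, nsmul_eq_mul] at h1
    rw [sum_comm] at h1
    have h3 : ∀ u : Fin n → ZMod q, ∑ b : Fin n → Bool, (if pt δ u b ∈ F ∧
          i ∈ Y347.CO.sens (fun b => C.val o (pt δ u b)) b then (1 : ℝ) else 0) =
        ∑ b ∈ univ.filter (fun b => pt δ u b ∈ F),
          (if i ∈ Y347.CO.sens (fun b => C.val o (pt δ u b)) b then (1 : ℝ) else 0) := by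
      intro u
      rw [sum_filter]
      apply sum_congr rfl
      intro b _
      rw [ite_and]
    rw [sum_congr rfl fun u _ => h3 u] at h1
    calc (2 : ℝ) ^ n * bE F i δ =
        2 * (((univ.filter fun w : Fin n → Bool => w i = false).card : ℝ) * bE F i δ) := by
          rw [← h2']; ring
      _ ≤ _ := mul_le_mul_of_nonneg_left h1 (by norm_num)
  have hsum := sum_le_sum hlow
  rw [← mul_sum, ← mul_sum, sum_comm] at hsum
  have hswap : ∀ u : Fin n → ZMod q, ∑ i ∈ D, ∑ b ∈ univ.filter (fun b => pt δ u b ∈ F),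
      (if i ∈ Y347.CO.sens (fun b => C.val o (pt δ u b)) b then (1 : ℝ) else 0) =
      ∑ b ∈ univ.filter (fun b => pt δ u b ∈ F),
        (((Y347.CO.sens (fun b => C.val o (pt δ u b)) b) ∩ D).card : ℝ) := by
    intro u
    rw [sum_comm]
    apply sum_congr rfl
    intro b _
    rw [inter_comm, ← filter_mem_eq_inter, card_filter]
    push_cast
    rfl
  rw [sum_congr rfl fun u _ => hswap u] at hsum
  have hup := sum_le_sum fun u (_ : u ∈ (univ : Finset (Fin n → ZMod q))) => hcube u
  rw [sum_add_distrib, ← mul_sum, sum_const, card_univ, Fintype.card_fun, Fintype.card_fin,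
    ZMod.card, nsmul_eq_mul] at hup
  have hcount : ∑ u : Fin n → ZMod q, ((univ.filter (fun b => pt δ u b ∈ F)).card : ℝ) =
      2 ^ n * F.card := by
    have e1 : ∀ u : Fin n → ZMod q, ((univ.filter (fun b => pt δ u b ∈ F)).card : ℝ) =
        ∑ b : Fin n → Bool, if pt δ u b ∈ F then (1 : ℝ) else 0 := by
      intro u
      rw [card_filter]
      push_cast
      rfl
    rw [sum_congr rfl fun u _ => e1 u, sum_comm]
    have e2 : ∀ b : Fin n → Bool, ∑ u : Fin n → ZMod q, (if pt δ u b ∈ F then (1 : ℝ) else 0) =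
        F.card := by
      intro b
      have e := (Equiv.ofBijective _ (pt_inj δ b)).sum_comp
        (fun x => if x ∈ F then (1 : ℝ) else 0)
      refine e.trans ?_
      rw [sum_ite_mem, univ_inter, sum_const, nsmul_eq_mul, mul_one]
    rw [sum_congr rfl fun b _ => e2 b, sum_const, card_univ, Fintype.card_fun, Fintype.card_bool,
      Fintype.card_fin, nsmul_eq_mul]
    push_cast
    rfl
  rw [hcount] at hup
  push_cast at hup
  have h2n : (0 : ℝ) < 2 ^ n := by positivity
  have hfin := hsum.trans (mul_le_mul_of_nonneg_left hup (by norm_num : (0 : ℝ) ≤ 2))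
  have e : 2 * (κ * (2 ^ n * (F.card : ℝ)) + (q : ℝ) ^ n * (D.card * (2 ^ n * R))) =
      2 ^ n * (2 * κ * F.card + 2 * D.card * ((q : ℝ) ^ n * R)) := by ring
  rw [e] at hfin
  exact le_of_mul_le_mul_left hfin h2n

end words

end Pool.Agent.Q102.CD
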