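import Pool.Agent.Y347.CO.Sens
import Pool.Agent.Y220.CO.Tail

set_option autoImplicit false

/-!
# Circuits of constant depth which read words over an arbitrary alphabet

The leaves of a circuit are arbitrary tests of one letter. We restrict the circuit to a random
subcube `{u + δ b : b ∈ {0,1}^n}` and use the tail bound for the sensitivity of circuits.
-/

namespace Pool.Agent.Q102.CD

open Finset Function
open Pool.Agent

/-- A circuit which reads words of length `n` over the alphabet `α`. `val v x` is the bit at the
node `v` if the input is `x`. An element `(u, b)` of a set `J` of wires is a wire from the node `u`,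
and it is true if the bit at `u` is `b` (so negations are free). Every node is a test of one letter
of the input, or a gate of one of the following kinds: an arbitrary gate with at most `w` wires (its
value is a function of the set of its true wires), an AND gate, an OR gate. The depth grows along
the wires. -/
structure Circuit (α : Type) (w n : ℕ) where
  Node : Type
  [finite : Finite Node]
  val : Node → (Fin n → α) → Bool
  depth : Node → ℕ
  rule : ∀ v : Node, (∃ (i : Fin n) (S : α → Bool), ∀ x, val v x = S (x i)) ∨
    ∃ J : Finset (Node × Bool), (∀ u ∈ J, depth u.1 < depth v) ∧
      ((J.card ≤ w ∧ ∃ F : Finset (Node × Bool) → Bool,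
          ∀ x, val v x = F (J.filter fun u => val u.1 x = u.2)) ∨
        (∀ x, val v x = decide (∀ u ∈ J, val u.1 x = u.2)) ∨
        (∀ x, val v x = decide (∃ u ∈ J, val u.1 x = u.2)))

section subst
variable {α : Type} {w n : ℕ}

/-- the embedding of wires -/
def emb (C : Circuit α w n) : C.Node × Bool ↪ (Fin n ⊕ C.Node) × Bool :=
  ⟨fun u => (Sum.inr u.1, u.2), fun u v h => by
    have h1 := congrArg Prod.fst h
    have h2 := congrArg Prod.snd h
    exact Prod.ext (Sum.inr_injective h1) h2⟩

/-- substitution of functions of one bit for the letters -/
def subst (C : Circuit α w n) (hw : 1 ≤ w) (g : Fin n → Bool → α) : Y603.MS.Circuit w n where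
  Node := Fin n ⊕ C.Node
  finite := by
    have := C.finite
    infer_instance
  val v b := Sum.elim (fun i => b i) (fun v => C.val v fun i => g i (b i)) v
  depth v := Sum.elim (fun _ => 0) (fun v => C.depth v + 1) v
  leak := ∅
  rule := by
    classical
    rintro (i | v)
    · right; left
      exact ⟨i, fun x => rfl⟩
    · right; right
      rcases C.rule v with ⟨i, S, hS⟩ | ⟨J, hJd, hJ⟩
      · refine ⟨{(Sum.inl i, true)}, ?_, Or.inl ⟨by simpa using hw,
          fun s => if (Sum.inl i, true) ∈ s then S (g i true) else S (g i false), ?_⟩⟩
        · intro u hu
          rw [mem_singleton] at hu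
          subst hu
          exact Nat.succ_pos _
        · intro b
          show C.val v (fun i => g i (b i)) = _
          rw [hS]
          cases hb : b i with
          | true =>
            refine (if_pos ?_).symm
            rw [mem_filter]
            exact ⟨mem_singleton_self _, hb⟩
          | false =>
            refine (if_neg ?_).symm
            rw [mem_filter]
            rintro ⟨-, h⟩
            have h' : b i = true := h
            rw [hb] at h'
            exact Bool.false_ne_true h'
      · have hmem : ∀ u : (Fin n ⊕ C.Node) × Bool, u ∈ J.map (emb C) ↔
            ∃ u' ∈ J, (Sum.inr u'.1, u'.2) = u := by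
          intro u
          rw [mem_map]
          rfl
        refine ⟨J.map (emb C), ?_, ?_⟩
        · intro u hu
          obtain ⟨u', hu', rfl⟩ := (hmem u).1 hu
          exact Nat.succ_lt_succ (hJd u' hu')
        · rcases hJ with ⟨hc, F, hF⟩ | h | h
          · left
            refine ⟨by rw [card_map]; exact hc,
              fun s => F (J.filter fun u => emb C u ∈ s), ?_⟩
            intro b
            show C.val v (fun i => g i (b i)) = _
            rw [hF]
            show _ = F _
            congr 1
            ext u
            rw [mem_filter, mem_filter, mem_filter]
            constructor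
            · rintro ⟨h1, h2⟩
              exact ⟨h1, (hmem _).2 ⟨u, h1, rfl⟩, h2⟩
            · rintro ⟨h1, -, h2⟩
              exact ⟨h1, h2⟩
          · right; left
            intro b
            show C.val v (fun i => g i (b i)) = _
            rw [h]
            apply decide_eq_decide.2
            constructor
            · intro h1 u hu
              obtain ⟨u', hu', rfl⟩ := (hmem u).1 hu
              exact h1 u' hu'
            · intro h1 u hu
              exact h1 _ ((hmem _).2 ⟨u, hu, rfl⟩)
          · right; right
            intro b
            show C.val v (fun i => g i (b i)) = _
            rw [h]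
            apply decide_eq_decide.2
            constructor
            · rintro ⟨u, hu, h1⟩
              exact ⟨_, (hmem _).2 ⟨u, hu, rfl⟩, h1⟩
            · rintro ⟨u, hu, h1⟩
              obtain ⟨u', hu', rfl⟩ := (hmem u).1 hu
              exact ⟨u', hu', h1⟩

end subst

end Pool.Agent.Q102.CD
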