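import Pool.Agent.Q102.CD.Slice
import Pool.Agent.H602R3.DHJ.Main

set_option autoImplicit false

/-!
# Sets without lines
-/

namespace Pool.Agent.Q102.CD

open Finset Function
open Pool.Agent

section words
variable {q : ℕ} [NeZero q]

/-- the density Hales-Jewett theorem for the alphabet `ZMod q` -/
theorem dhj_small {δ : ℝ} (hδ : 0 < δ) : ∃ m : ℕ, 0 < m ∧ ∀ B : Finset (Fin m → ZMod q),
    H602R3.DHJ.LFr (B : Set (Fin m → ZMod q)) → (B.card : ℝ) ≤ δ * (q : ℝ) ^ m := by
  classical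
  have hq1 : q - 1 + 1 = q := Nat.sub_add_cancel (Nat.one_le_iff_ne_zero.2 (NeZero.ne q))
  have e : Fin (q - 1 + 1) ≃ ZMod q := (Fintype.equivFinOfCardEq (by rw [ZMod.card, hq1])).symm
  have hD : H602R3.DHJ.D (ZMod q) := H602R3.DHJ.D_equiv e (H602R3.DHJ.dhj (q - 1))
  obtain ⟨N, hN⟩ := hD δ hδ
  refine ⟨N + 1, Nat.succ_pos _, fun B hB => ?_⟩
  have h1 := H602R3.DHJ.D_up hN (Fin (N + 1)) (by rw [Fintype.card_fin]; omega) _ hB
  have h2 : H602R3.DHJ.dn (B : Set (Fin (N + 1) → ZMod q)) =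
      (B.card : ℝ) / Fintype.card (Fin (N + 1) → ZMod q) := by
    unfold H602R3.DHJ.dn H602R3.DHJ.av
    congr 1
    rw [← sum_subset (subset_univ B)]
    · rw [sum_congr rfl fun x hx => Set.indicator_of_mem (by simpa using hx) _]
      simp
    · intro x _ hx
      rw [Set.indicator_of_notMem]
      simpa using hx
  have hpos : (0 : ℝ) < Fintype.card (Fin (N + 1) → ZMod q) := by exact_mod_cast Fintype.card_pos
  rw [h2, div_lt_iff₀ hpos, Fintype.card_fun, ZMod.card, Fintype.card_fin] at h1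
  have h3 : (B.card : ℝ) < δ * (q : ℝ) ^ (N + 1) := by exact_mod_cast h1
  exact h3.le

end words

end Pool.Agent.Q102.CD
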