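import Pool.Agent.Q102.CD.Bd

set_option autoImplicit false

/-!
# Relative densities in sets of words decided by circuits
-/

namespace Pool.Agent.Q102.CD

open Finset Function
open Pool.Agent

section words
variable {q n : ℕ}

/-- replace the letters with index in `J` -/
def mix (J : Finset (Fin n)) (x y : Fin n → ZMod q) : Fin n → ZMod q :=
  fun i => if i ∈ J then y i else x i

theorem mix_mix (J : Finset (Fin n)) (x y : Fin n → ZMod q) :
    mix J (mix J x y) (mix J y x) = x := by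
  funext i
  unfold mix
  split_ifs <;> rfl

theorem mix_empty (x y : Fin n → ZMod q) : mix ∅ x y = x := by
  funext i
  simp [mix]

theorem mix_insert {J : Finset (Fin n)} {i : Fin n} (x y : Fin n → ZMod q) :
    mix (insert i J) x y = update (mix J x y) i (y i) := by
  funext j
  rcases eq_or_ne j i with rfl | hj
  · simp [mix]
  · simp [mix, hj]

/-- exchange the letters with index in `J` -/
def swapE (J : Finset (Fin n)) :
    (Fin n → ZMod q) × (Fin n → ZMod q) ≃ (Fin n → ZMod q) × (Fin n → ZMod q) where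
  toFun p := (mix J p.1 p.2, mix J p.2 p.1)
  invFun p := (mix J p.1 p.2, mix J p.2 p.1)
  left_inv p := Prod.ext (mix_mix J p.1 p.2) (mix_mix J p.2 p.1)
  right_inv p := Prod.ext (mix_mix J p.1 p.2) (mix_mix J p.2 p.1)

variable [NeZero q]

/-- the number of pairs `(x, y)` where `x ∈ F` and `mix J x y ∉ F` -/
def cN (F : Finset (Fin n → ZMod q)) (J : Finset (Fin n)) : ℕ :=
  (univ.filter fun p : (Fin n → ZMod q) × (Fin n → ZMod q) => p.1 ∈ F ∧ mix J p.1 p.2 ∉ F).card

theorem card_pairs (F : Finset (Fin n → ZMod q)) (i : Fin n) :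
    (univ.filter fun p : (Fin n → ZMod q) × (Fin n → ZMod q) =>
      p.1 ∈ F ∧ update p.1 i (p.2 i) ∉ F).card * q = q ^ n * bB F i := by
  classical
  have h1 : (univ.filter fun p : (Fin n → ZMod q) × (Fin n → ZMod q) =>
      p.1 ∈ F ∧ update p.1 i (p.2 i) ∉ F).card =
      ∑ z ∈ F, (univ.filter fun w : Fin n → ZMod q => update z i (w i) ∉ F).card := by
    rw [card_filter, Fintype.sum_prod_type]
    have : ∀ z : Fin n → ZMod q, (∑ w : Fin n → ZMod q, if z ∈ F ∧ update z i (w i) ∉ F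
        then 1 else 0) = if z ∈ F then
          (univ.filter fun w : Fin n → ZMod q => update z i (w i) ∉ F).card else 0 := by
      intro z
      split_ifs with hz
      · rw [card_filter]
        apply sum_congr rfl
        intro w _
        simp only [hz, true_and]
      · apply sum_eq_zero
        intro w _
        rw [if_neg (fun h => hz h.1)]
    rw [sum_congr rfl fun z _ => this z, sum_ite_mem, univ_inter]
  rw [h1, sum_mul, bB, mul_sum]
  apply sum_congr rfl
  intro z _
  have h2 := card_coord (α := ZMod q) i (fun c => update z i c ∉ F)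
  rw [ZMod.card] at h2
  exact h2

theorem cN_insert (F : Finset (Fin n → ZMod q)) {J : Finset (Fin n)} {i : Fin n} (hi : i ∉ J) :
    cN F (insert i J) * q ≤ cN F J * q + q ^ n * bB F i := by
  classical
  rw [← card_pairs F i, ← add_mul]
  apply Nat.mul_le_mul_right
  have e : (univ.filter fun p : (Fin n → ZMod q) × (Fin n → ZMod q) =>
      p.1 ∈ F ∧ update p.1 i (p.2 i) ∉ F).card =
      (univ.filter fun p : (Fin n → ZMod q) × (Fin n → ZMod q) =>
      mix J p.1 p.2 ∈ F ∧ update (mix J p.1 p.2) i (p.2 i) ∉ F).card := by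
    refine (card_bij' (fun p _ => swapE J p) (fun p _ => swapE J p) ?_ ?_ ?_ ?_).symm
    · intro p hp
      rw [mem_filter] at hp ⊢
      refine ⟨mem_univ _, hp.2.1, ?_⟩
      have : (swapE J p).2 i = p.2 i := by simp [swapE, mix, hi]
      rw [this]
      exact hp.2.2
    · intro p hp
      rw [mem_filter] at hp ⊢
      have h1 : mix J (swapE J p).1 (swapE J p).2 = p.1 := mix_mix J p.1 p.2
      have h2 : (swapE J p).2 i = p.2 i := by simp [swapE, mix, hi]
      rw [h1, h2]
      exact ⟨mem_univ _, hp.2.1, hp.2.2⟩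
    · intro p _
      exact (swapE J).left_inv p
    · intro p _
      exact (swapE J).left_inv p
  rw [e]
  unfold cN
  refine le_trans (card_le_card ?_) (card_union_le _ _)
  intro p hp
  rw [mem_filter] at hp
  rw [mem_union, mem_filter, mem_filter]
  by_cases h : mix J p.1 p.2 ∈ F
  · right
    refine ⟨mem_univ _, h, ?_⟩
    rw [← mix_insert]
    exact hp.2.2
  · left
    exact ⟨mem_univ _, hp.2.1, h⟩

theorem cN_le (F : Finset (Fin n → ZMod q)) (J : Finset (Fin n)) :
    cN F J * q ≤ q ^ n * ∑ i ∈ J, bB F i := by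
  classical
  induction J using Finset.induction_on with
  | empty =>
    have : cN F ∅ = 0 := by
      unfold cN
      rw [card_eq_zero, filter_eq_empty_iff]
      rintro p - ⟨h1, h2⟩
      rw [mix_empty] at h2
      exact h2 h1
    rw [this]
    simp
  | insert i J hi ih =>
    rw [sum_insert hi, mul_add]
    have := cN_insert F hi
    omega

/-- densities and boundaries -/
theorem mix_density (F A : Finset (Fin n → ZMod q)) (J : Finset (Fin n)) {ρ : ℝ}
    (hρ : ∀ z : Fin n → ZMod q,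
      ((univ.filter fun w : Fin n → ZMod q => mix J z w ∈ A).card : ℝ) ≤ ρ * (q : ℝ) ^ n) :
    ((A ∩ F).card : ℝ) ≤ ρ * F.card + (∑ i ∈ J, (bB F i : ℝ)) / q := by
  classical
  have hq : (0 : ℝ) < q := by exact_mod_cast Nat.pos_of_ne_zero (NeZero.ne q)
  have h1 : (A ∩ F).card * q ^ n ≤
      (univ.filter fun p : (Fin n → ZMod q) × (Fin n → ZMod q) =>
        p.1 ∈ A ∧ mix J p.1 p.2 ∈ F).card + cN F J := by
    have e : (A ∩ F).card * q ^ n = (univ.filter fun p : (Fin n → ZMod q) × (Fin n → ZMod q) =>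
        p.1 ∈ A ∩ F).card := by
      have e1 : (univ.filter fun p : (Fin n → ZMod q) × (Fin n → ZMod q) => p.1 ∈ A ∩ F) =
          (A ∩ F) ×ˢ univ := by
        ext p
        simp
      rw [e1, card_product, card_univ, Fintype.card_fun, ZMod.card, Fintype.card_fin]
    rw [e]
    unfold cN
    refine le_trans (card_le_card ?_) (card_union_le _ _)
    intro p hp
    rw [mem_filter, mem_inter] at hp
    rw [mem_union, mem_filter, mem_filter]
    by_cases h : mix J p.1 p.2 ∈ F
    · left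
      exact ⟨mem_univ _, hp.2.1, h⟩
    · right
      exact ⟨mem_univ _, hp.2.2, h⟩
  have h2 : ((univ.filter fun p : (Fin n → ZMod q) × (Fin n → ZMod q) =>
      p.1 ∈ A ∧ mix J p.1 p.2 ∈ F).card : ℝ) ≤ F.card * (ρ * (q : ℝ) ^ n) := by
    have e : (univ.filter fun p : (Fin n → ZMod q) × (Fin n → ZMod q) =>
        p.1 ∈ A ∧ mix J p.1 p.2 ∈ F).card =
        (univ.filter fun p : (Fin n → ZMod q) × (Fin n → ZMod q) =>
        p.1 ∈ F ∧ mix J p.1 p.2 ∈ A).card := by
      refine card_bij' (fun p _ => swapE J p) (fun p _ => swapE J p) ?_ ?_ ?_ ?_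
      · intro p hp
        rw [mem_filter] at hp ⊢
        have h1 : mix J (swapE J p).1 (swapE J p).2 = p.1 := mix_mix J p.1 p.2
        rw [h1]
        exact ⟨mem_univ _, hp.2.2, hp.2.1⟩
      · intro p hp
        rw [mem_filter] at hp ⊢
        have h1 : mix J (swapE J p).1 (swapE J p).2 = p.1 := mix_mix J p.1 p.2
        rw [h1]
        exact ⟨mem_univ _, hp.2.2, hp.2.1⟩
      · intro p _
        exact (swapE J).left_inv p
      · intro p _
        exact (swapE J).left_inv p
    have e2 : (univ.filter fun p : (Fin n → ZMod q) × (Fin n → ZMod q) =>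
        p.1 ∈ F ∧ mix J p.1 p.2 ∈ A).card =
        ∑ z ∈ F, (univ.filter fun w : Fin n → ZMod q => mix J z w ∈ A).card := by
      rw [card_filter, Fintype.sum_prod_type]
      have : ∀ z : Fin n → ZMod q, (∑ w : Fin n → ZMod q, if z ∈ F ∧ mix J z w ∈ A
          then 1 else 0) = if z ∈ F then
            (univ.filter fun w : Fin n → ZMod q => mix J z w ∈ A).card else 0 := by
        intro z
        split_ifs with hz
        · rw [card_filter]
          apply sum_congr rfl
          intro w _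
          simp only [hz, true_and]
        · apply sum_eq_zero
          intro w _
          rw [if_neg (fun h => hz h.1)]
      rw [sum_congr rfl fun z _ => this z, sum_ite_mem, univ_inter]
    rw [e, e2, Nat.cast_sum, ← nsmul_eq_mul, ← sum_const]
    exact sum_le_sum fun z _ => hρ z
  have h3 : (cN F J : ℝ) * q ≤ (q : ℝ) ^ n * ∑ i ∈ J, (bB F i : ℝ) := by
    exact_mod_cast cN_le F J
  have h1' : ((A ∩ F).card : ℝ) * (q : ℝ) ^ n ≤ F.card * (ρ * (q : ℝ) ^ n) + cN F J := by
    have : ((A ∩ F).card : ℝ) * (q : ℝ) ^ n ≤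
        ((univ.filter fun p : (Fin n → ZMod q) × (Fin n → ZMod q) =>
        p.1 ∈ A ∧ mix J p.1 p.2 ∈ F).card : ℝ) + cN F J := by exact_mod_cast h1
    linarith
  have h4 : (cN F J : ℝ) ≤ (q : ℝ) ^ n * ((∑ i ∈ J, (bB F i : ℝ)) / q) := by
    rw [← mul_div_assoc, le_div_iff₀ hq]
    exact h3
  have hqn : (0 : ℝ) < (q : ℝ) ^ n := by positivity
  have h5 : ((A ∩ F).card : ℝ) * (q : ℝ) ^ n ≤
      (ρ * F.card + (∑ i ∈ J, (bB F i : ℝ)) / q) * (q : ℝ) ^ n := by
    calc ((A ∩ F).card : ℝ) * (q : ℝ) ^ n ≤ F.card * (ρ * (q : ℝ) ^ n) + cN F J := h1'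
      _ ≤ F.card * (ρ * (q : ℝ) ^ n) + (q : ℝ) ^ n * ((∑ i ∈ J, (bB F i : ℝ)) / q) := by
          linarith
      _ = _ := by ring
  exact le_of_mul_le_mul_right h5 hqn

/-- **Relative densities.** -/
theorem rel {w ℓ d k m : ℕ} (C : Circuit (ZMod q) w n) (hw : 1 ≤ w) (hℓ : 1 ≤ ℓ)
    (hs : n + Nat.card C.Node ≤ 2 ^ ℓ) (hd : ∀ v, C.depth v ≤ d) (o : C.Node)
    (F A : Finset (Fin n → ZMod q)) (hF : ∀ x, x ∈ F ↔ C.val o x = true) (hk : 1 ≤ k)
    (J : Fin k → Finset (Fin n)) (hJ : ∀ j j', j ≠ j' → Disjoint (J j) (J j'))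
    (hJc : ∀ j, (J j).card ≤ m) {ρ ε : ℝ} (hε : 0 ≤ ε)
    (hρ : ∀ j, ∀ z : Fin n → ZMod q,
      ((univ.filter fun w : Fin n → ZMod q => mix (J j) z w ∈ A).card : ℝ) ≤ ρ * (q : ℝ) ^ n) :
    ((A ∩ F).card : ℝ) ≤ (ρ + ε) * F.card + 2 * m * ((q : ℝ) ^ n *
      (2 : ℝ) ^ (2 * ℓ + 4 - ε / 2 * k / ((d + 1 : ℕ) * Y347.CO.KK (d + 1) w ℓ))) := by
  classical
  have hq : (0 : ℝ) < q := by exact_mod_cast Nat.pos_of_ne_zero (NeZero.ne q)
  have hk0 : (0 : ℝ) < k := by exact_mod_cast hk
  set R : ℝ := (q : ℝ) ^ n *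
    (2 : ℝ) ^ (2 * ℓ + 4 - ε / 2 * k / ((d + 1 : ℕ) * Y347.CO.KK (d + 1) w ℓ)) with hR
  have hR0 : 0 ≤ R := by positivity
  set D : Finset (Fin n) := univ.biUnion J with hD
  have hdisj : ∀ j ∈ (univ : Finset (Fin k)), ∀ j' ∈ (univ : Finset (Fin k)), j ≠ j' →
      Disjoint (J j) (J j') := fun j _ j' _ h => hJ j j' h
  have hDc : (D.card : ℝ) ≤ k * m := by
    have : D.card ≤ k * m := by
      refine card_biUnion_le.trans ((sum_le_sum fun j _ => hJc j).trans ?_)
      rw [sum_const, card_univ, Fintype.card_fin, smul_eq_mul]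
    exact_mod_cast this
  have hsum : ∑ i ∈ D, (bB F i : ℝ) ≤ q * (2 * (ε / 2 * k) * F.card + 2 * D.card * R) := by
    have h1 : ∀ i ∈ D, (bB F i : ℝ) = ∑ δ : ZMod q, (bE F i δ : ℝ) := by
      intro i _
      rw [bB_eq]
      push_cast
      rfl
    rw [sum_congr rfl h1, sum_comm]
    refine (sum_le_sum fun δ _ => sum_bE C hw hℓ hs hd o F hF D (κ := ε / 2 * k)
      (by positivity) δ).trans (le_of_eq ?_)
    rw [sum_const, card_univ, ZMod.card, nsmul_eq_mul]
  rw [hD, sum_biUnion hdisj, ← hD] at hsum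
  obtain ⟨j, hj⟩ : ∃ j, ∑ i ∈ J j, (bB F i : ℝ) ≤ q * (ε * F.card + 2 * m * R) := by
    by_contra hcon
    push Not at hcon
    have hne : (univ : Finset (Fin k)).Nonempty := ⟨⟨0, hk⟩, mem_univ _⟩
    have h1 := sum_lt_sum_of_nonempty hne fun j _ => hcon j
    rw [sum_const, card_univ, Fintype.card_fin, nsmul_eq_mul] at h1
    have h2 : (q : ℝ) * (2 * (ε / 2 * k) * F.card + 2 * D.card * R) ≤
        k * (q * (ε * F.card + 2 * m * R)) := by
      have h3 : (D.card : ℝ) * R ≤ k * m * R := mul_le_mul_of_nonneg_right hDc hR0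
      have h4 : (q : ℝ) * (2 * (D.card * R)) ≤ q * (2 * (k * m * R)) := by
        apply mul_le_mul_of_nonneg_left _ hq.le
        linarith
      linarith
    linarith
  refine (mix_density F A (J j) (hρ j)).trans ?_
  have h5 : (∑ i ∈ J j, (bB F i : ℝ)) / q ≤ ε * F.card + 2 * m * R := by
    rw [div_le_iff₀ hq, mul_comm _ (q : ℝ)]
    exact hj
  linarith

end words

end Pool.Agent.Q102.CD
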