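import Pool.Agent.Q102.CD.Slice

set_option autoImplicit false

/-!
# Integers and their digits
-/

namespace Pool.Agent.Q102.CD

open Finset Function
open Pool.Agent

section digits
variable {b n m : ℕ} [NeZero b]

/-- the number with the digits `x` in base `b` -/
def num {b n : ℕ} (x : Fin n → ZMod b) : ℕ := ∑ i, (x i).val * b ^ (i : ℕ)

theorem num_eq (x : Fin n → ZMod b) :
    num x = (finFunctionFinEquiv (fun i => (⟨(x i).val, ZMod.val_lt _⟩ : Fin b)) : ℕ) := by
  rw [finFunctionFinEquiv_apply]
  rfl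

theorem num_lt (x : Fin n → ZMod b) : num x < b ^ n := by
  rw [num_eq]
  exact Fin.is_lt _

theorem num_inj : Injective (num : (Fin n → ZMod b) → ℕ) := by
  intro x y h
  rw [num_eq, num_eq] at h
  have h1 := finFunctionFinEquiv.injective (Fin.ext h)
  funext i
  have h2 := congrArg Fin.val (congrFun h1 i)
  exact ZMod.val_injective b h2

theorem num_surj {a : ℕ} (ha : a < b ^ n) : ∃ x : Fin n → ZMod b, num x = a := by
  refine ⟨fun i => ((finFunctionFinEquiv.symm ⟨a, ha⟩ : Fin n → Fin b) i : ℕ), ?_⟩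
  rw [num_eq]
  have h : (fun i => (⟨(((finFunctionFinEquiv.symm ⟨a, ha⟩ : Fin n → Fin b) i : ℕ) : ZMod b).val,
      ZMod.val_lt _⟩ : Fin b)) = (finFunctionFinEquiv.symm ⟨a, ha⟩ : Fin n → Fin b) := by
    funext i
    apply Fin.ext
    show (((finFunctionFinEquiv.symm ⟨a, ha⟩ : Fin n → Fin b) i : ℕ) : ZMod b).val = _
    rw [ZMod.val_natCast, Nat.mod_eq_of_lt (Fin.is_lt _)]
  rw [h, Equiv.apply_symm_apply]

/-- the words of the elements of a set -/
def words (b n : ℕ) [NeZero b] (A : Finset ℕ) : Finset (Fin n → ZMod b) :=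
  univ.filter fun x => num x ∈ A

theorem mem_words {A : Finset ℕ} {x : Fin n → ZMod b} : x ∈ words b n A ↔ num x ∈ A := by
  rw [words, mem_filter]
  exact ⟨fun h => h.2, fun h => ⟨mem_univ _, h⟩⟩

theorem card_words {A : Finset ℕ} (hA : ∀ a ∈ A, a < b ^ n) : (words b n A).card = A.card := by
  refine card_bij (fun x _ => num x) (fun x hx => mem_words.1 hx) (fun x _ y _ h => num_inj h) ?_
  intro a ha
  obtain ⟨x, hx⟩ := num_surj (hA a ha)
  exact ⟨x, mem_words.2 (by rw [hx]; exact ha), hx⟩

theorem card_words_inter {A F : Finset ℕ} (hF : ∀ a ∈ F, a < b ^ n) :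
    (words b n A ∩ words b n F).card = (A ∩ F).card := by
  rw [← card_words (b := b) (n := n) (A := A ∩ F) (fun a ha => hF a (mem_inter.1 ha).2)]
  congr 1
  ext x
  rw [mem_inter, mem_words, mem_words, mem_words, mem_inter]

/-- `A` contains no three terms `a`, `a + d`, `a + 2 * d` with `d ≥ 1`. -/
def APFree (A : Finset ℕ) : Prop :=
  ∀ a d : ℕ, 1 ≤ d → a ∈ A → a + d ∈ A → a + 2 * d ∉ A

theorem APFree.three {A : Finset ℕ} (h : APFree A) : ThreeAPFree (A : Set ℕ) := by
  intro x hx y hy z hz hxy
  rw [mem_coe] at hx hy hz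
  by_contra hne
  rcases Nat.lt_or_gt_of_ne hne with h1 | h1
  · refine h x (y - x) (by omega) hx ?_ ?_
    · have : x + (y - x) = y := by omega
      rw [this]; exact hy
    · have : x + 2 * (y - x) = z := by omega
      rw [this]; exact hz
  · refine h z (y - z) (by omega) hz ?_ ?_
    · have : z + (y - z) = y := by omega
      rw [this]; exact hy
    · have : z + 2 * (y - z) = x := by omega
      rw [this]; exact hx

omit [NeZero b] in
theorem num_glue (hm : 0 < m) {j : ℕ} (hj : j < n / m) (z : Fin n → ZMod b)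
    (t : Fin m → ZMod b) : num (glue hm j z t) = num (glue hm j z 0) + b ^ (j * m) * num t := by
  classical
  have h1 : ∀ t : Fin m → ZMod b, num (glue hm j z t) =
      ∑ i ∈ univ.filter (fun i : Fin n => ¬ (i : ℕ) / m = j), (z i).val * b ^ (i : ℕ) +
        b ^ (j * m) * num t := by
    intro t
    rw [num, ← sum_filter_add_sum_filter_not univ (fun i : Fin n => (i : ℕ) / m = j), add_comm]
    congr 1
    · apply sum_congr rfl
      intro i hi
      unfold glue
      rw [if_neg (mem_filter.1 hi).2]
    · rw [num, mul_sum]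
      refine (sum_bij' (fun i _ => (⟨(i : ℕ) % m, Nat.mod_lt _ hm⟩ : Fin m))
        (fun s _ => pos hj s) ?_ ?_ ?_ ?_ ?_)
      · intro i _
        exact mem_univ _
      · intro s _
        rw [mem_filter]
        refine ⟨mem_univ _, ?_⟩
        show (j * m + s) / m = j
        rw [mul_comm, Nat.mul_add_div hm, Nat.div_eq_of_lt s.2, add_zero]
      · intro i hi
        have h2 : (i : ℕ) / m = j := (mem_filter.1 hi).2
        apply Fin.ext
        show j * m + (i : ℕ) % m = i
        rw [← h2, mul_comm]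
        exact Nat.div_add_mod _ _
      · intro s _
        apply Fin.ext
        show (j * m + s) % m = s
        rw [mul_comm, Nat.mul_add_mod, Nat.mod_eq_of_lt s.2]
      · intro i hi
        have h2 : (i : ℕ) / m = j := (mem_filter.1 hi).2
        unfold glue
        rw [if_pos h2]
        have h3 : b ^ (i : ℕ) = b ^ (j * m) * b ^ ((i : ℕ) % m) := by
          rw [← pow_add]
          congr 1
          rw [← h2, mul_comm]
          exact (Nat.div_add_mod _ _).symm
        rw [h3]
        ring
  rw [h1 t, h1 0]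
  have h2 : num (0 : Fin m → ZMod b) = 0 := by
    rw [num]
    apply sum_eq_zero
    intro i _
    rw [Pi.zero_apply, ZMod.val_zero, zero_mul]
  rw [h2, mul_zero, add_zero]

/-- slices of progression-free sets of integers -/
theorem card_slice_num (hm : 0 < m) {j : ℕ} (hj : j < n / m) {A : Finset ℕ} (hA : APFree A)
    (z : Fin n → ZMod b) :
    (univ.filter fun t : Fin m → ZMod b => glue hm j z t ∈ words b n A).card ≤
      rothNumberNat (b ^ m) := by
  classical
  set B := univ.filter fun t : Fin m → ZMod b => glue hm j z t ∈ words b n A with hB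
  rw [← card_image_of_injective B (num_inj (b := b) (n := m))]
  have hmem : ∀ s, s ∈ B.image num → num (glue hm j z 0) + b ^ (j * m) * s ∈ A := by
    intro s hs
    obtain ⟨t, ht, rfl⟩ := mem_image.1 hs
    rw [← num_glue hm hj]
    exact mem_words.1 (mem_filter.1 ht).2
  have hfree : APFree (B.image num) := by
    intro a d hd h0 h1 h2
    have hb : 1 ≤ b ^ (j * m) := Nat.one_le_iff_ne_zero.2 (pow_ne_zero _ (NeZero.ne b))
    refine hA (num (glue hm j z 0) + b ^ (j * m) * a) (b ^ (j * m) * d)
      (Nat.mul_pos hb hd) (hmem _ h0) ?_ ?_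
    · have := hmem _ h1
      rwa [mul_add, ← add_assoc] at this
    · have := hmem _ h2
      rwa [mul_add, ← add_assoc, show b ^ (j * m) * (2 * d) = 2 * (b ^ (j * m) * d) by ring] at this
  refine hfree.three.le_rothNumberNat _ ?_ rfl
  intro x hx
  obtain ⟨t, -, rfl⟩ := mem_image.1 hx
  exact num_lt t

omit [NeZero b] in
/-- Roth's theorem -/
theorem roth_small (hb : 2 ≤ b) {δ : ℝ} (hδ : 0 < δ) :
    ∃ m : ℕ, 0 < m ∧ (rothNumberNat (b ^ m) : ℝ) ≤ δ * (b : ℝ) ^ m := by
  have h1 := rothNumberNat_isLittleO_id.def hδ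
  rw [Filter.eventually_atTop] at h1
  obtain ⟨N0, hN0⟩ := h1
  refine ⟨N0 + 1, Nat.succ_pos _, ?_⟩
  have h2 := hN0 (b ^ (N0 + 1)) (by
    have := Nat.lt_pow_self (n := N0 + 1) (a := b) (by omega)
    omega)
  rw [Real.norm_of_nonneg (by positivity), Real.norm_of_nonneg (by positivity)] at h2
  push_cast at h2
  exact h2

end digits

end Pool.Agent.Q102.CD
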