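import Pool.Agent.Q102.CD.Mix

set_option autoImplicit false

/-!
# Blocks of letters
-/

namespace Pool.Agent.Q102.CD

open Finset Function
open Pool.Agent

section words
variable {q n m : ℕ}

/-- the letters with index in block number `j` -/
def blkJ (n m j : ℕ) : Finset (Fin n) := univ.filter fun i => (i : ℕ) / m = j

theorem blkJ_disjoint {j j' : ℕ} (h : j ≠ j') : Disjoint (blkJ n m j) (blkJ n m j') := by
  rw [Finset.disjoint_left]
  intro i h1 h2
  rw [blkJ, mem_filter] at h1 h2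
  exact h (h1.2.symm.trans h2.2)

theorem blkJ_card (hm : 0 < m) (j : ℕ) : (blkJ n m j).card ≤ m := by
  have h := card_le_card_of_injOn (s := blkJ n m j) (t := range m) (fun i => (i : ℕ) % m)
    (fun i _ => by
      rw [coe_range]
      exact Nat.mod_lt _ hm)
    (by
      intro i hi i' hi' h
      have h1 : (i : ℕ) / m = j := (mem_filter.1 (mem_coe.1 hi)).2
      have h2 : (i' : ℕ) / m = j := (mem_filter.1 (mem_coe.1 hi')).2
      have h3 : (i : ℕ) % m = (i' : ℕ) % m := h
      apply Fin.ext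
      rw [← Nat.div_add_mod (i : ℕ) m, ← Nat.div_add_mod (i' : ℕ) m, h1, h2, h3])
  rwa [card_range] at h

/-- the positions of the letters of a block -/
def pos {j : ℕ} (hj : j < n / m) (s : Fin m) : Fin n :=
  ⟨j * m + s, by
    have h1 : (j + 1) * m ≤ n / m * m := Nat.mul_le_mul_right _ hj
    have h2 := Nat.div_mul_le_self n m
    have h3 := s.2
    have h4 : (j + 1) * m = j * m + m := by ring
    omega⟩

/-- replace block number `j` by the word `t` -/
def glue (hm : 0 < m) (j : ℕ) (z : Fin n → ZMod q) (t : Fin m → ZMod q) : Fin n → ZMod q :=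
  fun i => if (i : ℕ) / m = j then t ⟨(i : ℕ) % m, Nat.mod_lt _ hm⟩ else z i

theorem glue_pos (hm : 0 < m) {j : ℕ} (hj : j < n / m) (z : Fin n → ZMod q) (t : Fin m → ZMod q)
    (s : Fin m) : glue hm j z t (pos hj s) = t s := by
  unfold glue
  have h1 : (pos hj s : ℕ) / m = j := by
    show (j * m + s) / m = j
    rw [mul_comm, Nat.mul_add_div hm, Nat.div_eq_of_lt s.2, add_zero]
  rw [if_pos h1]
  congr 1
  apply Fin.ext
  show (j * m + s) % m = s
  rw [mul_comm, Nat.mul_add_mod, Nat.mod_eq_of_lt s.2]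

theorem mix_blkJ (hm : 0 < m) {j : ℕ} (hj : j < n / m) (z w : Fin n → ZMod q) :
    mix (blkJ n m j) z w = glue hm j z (fun s => w (pos hj s)) := by
  funext i
  unfold mix glue
  by_cases h : (i : ℕ) / m = j
  · have hi : i ∈ blkJ n m j := mem_filter.2 ⟨mem_univ _, h⟩
    rw [if_pos h, if_pos hi]
    show w i = w _
    congr 1
    apply Fin.ext
    show (i : ℕ) = j * m + (i : ℕ) % m
    rw [← h, mul_comm]
    exact (Nat.div_add_mod _ _).symm
  · have hi : i ∉ blkJ n m j := fun h' => h (mem_filter.1 h').2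
    rw [if_neg h, if_neg hi]

variable [NeZero q]

theorem card_slice (hm : 0 < m) {j : ℕ} (hj : j < n / m) (T : Finset (Fin m → ZMod q)) :
    (univ.filter fun w : Fin n → ZMod q => (fun s => w (pos hj s)) ∈ T).card * q ^ m =
      q ^ n * T.card := by
  classical
  set N : (Fin m → ZMod q) → ℕ := fun t =>
    (univ.filter fun w : Fin n → ZMod q => (fun s => w (pos hj s)) = t).card with hN
  have h1 : ∀ t, N t = N 0 := by
    intro t
    refine card_bij' (fun w _ => w - glue hm j 0 t) (fun w _ => w + glue hm j 0 t) ?_ ?_ ?_ ?_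
    · intro w hw
      rw [mem_filter] at hw ⊢
      refine ⟨mem_univ _, ?_⟩
      funext s
      have h2 := congrFun hw.2 s
      show w (pos hj s) - glue hm j 0 t (pos hj s) = 0
      rw [glue_pos hm hj, h2, sub_self]
    · intro w hw
      rw [mem_filter] at hw ⊢
      refine ⟨mem_univ _, ?_⟩
      funext s
      have h2 := congrFun hw.2 s
      show w (pos hj s) + glue hm j 0 t (pos hj s) = t s
      rw [glue_pos hm hj, h2]
      exact zero_add _
    · intro w _
      exact sub_add_cancel _ _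
    · intro w _
      exact add_sub_cancel_right _ _
  have h2 : ∀ T : Finset (Fin m → ZMod q),
      (univ.filter fun w : Fin n → ZMod q => (fun s => w (pos hj s)) ∈ T).card = T.card * N 0 := by
    intro T
    have := card_eq_sum_card_fiberwise (s := univ.filter fun w : Fin n → ZMod q =>
      (fun s => w (pos hj s)) ∈ T) (t := T) (f := fun w s => w (pos hj s))
      (fun w hw => by
        have := mem_coe.1 hw
        rw [mem_filter] at this
        exact mem_coe.2 this.2)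
    rw [this, ← smul_eq_mul, ← sum_const]
    apply sum_congr rfl
    intro t ht
    rw [← h1 t]
    rw [hN]
    simp only
    congr 1
    ext w
    rw [mem_filter, mem_filter, mem_filter]
    constructor
    · rintro ⟨⟨-, -⟩, h⟩
      exact ⟨mem_univ _, h⟩
    · rintro ⟨-, h⟩
      exact ⟨⟨mem_univ _, by rw [h]; exact ht⟩, h⟩
  have h3 := h2 univ
  have h4 : (univ.filter fun w : Fin n → ZMod q =>
      (fun s => w (pos hj s)) ∈ (univ : Finset (Fin m → ZMod q))) = univ := by
    ext w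
    simp
  rw [h4, card_univ, card_univ, Fintype.card_fun, Fintype.card_fun, ZMod.card, Fintype.card_fin,
    Fintype.card_fin] at h3
  rw [h2 T, h3]
  ring

/-- **Relative densities, blocks.** -/
theorem rel_blocks {w ℓ d : ℕ} (C : Circuit (ZMod q) w n) (hw : 1 ≤ w) (hℓ : 1 ≤ ℓ)
    (hs : n + Nat.card C.Node ≤ 2 ^ ℓ) (hd : ∀ v, C.depth v ≤ d) (o : C.Node)
    (F A : Finset (Fin n → ZMod q)) (hF : ∀ x, x ∈ F ↔ C.val o x = true) (hm : 0 < m)
    (hmn : m ≤ n) {θ ε : ℝ} (hε : 0 ≤ ε)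
    (hθ : ∀ j : ℕ, j < n / m → ∀ z : Fin n → ZMod q,
      ((univ.filter fun t : Fin m → ZMod q => glue hm j z t ∈ A).card : ℝ) ≤ θ * (q : ℝ) ^ m) :
    ((A ∩ F).card : ℝ) ≤ (θ + ε) * F.card + 2 * m * ((q : ℝ) ^ n *
      (2 : ℝ) ^ (2 * ℓ + 4 - ε / 2 * (n / m : ℕ) / ((d + 1 : ℕ) * Y347.CO.KK (d + 1) w ℓ))) := by
  classical
  have hk : 1 ≤ n / m := (Nat.one_le_div_iff hm).2 hmn
  have hq : (0 : ℝ) < q := by exact_mod_cast Nat.pos_of_ne_zero (NeZero.ne q)
  refine rel C hw hℓ hs hd o F A hF hk (fun j => blkJ n m j)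
    (fun j j' h => blkJ_disjoint fun h' => h (Fin.ext h')) (fun j => blkJ_card hm j) hε ?_
  intro j z
  have h1 := card_slice hm j.2 (univ.filter fun t : Fin m → ZMod q => glue hm j z t ∈ A)
  have e : (univ.filter fun w : Fin n → ZMod q => mix (blkJ n m j) z w ∈ A) =
      (univ.filter fun w : Fin n → ZMod q => (fun s => w (pos j.2 s)) ∈
        (univ.filter fun t : Fin m → ZMod q => glue hm j z t ∈ A)) := by
    ext w
    rw [mem_filter, mem_filter, mem_filter, mix_blkJ hm j.2]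
    simp
  rw [e]
  have h1' : ((univ.filter fun w : Fin n → ZMod q => (fun s => w (pos j.2 s)) ∈
        (univ.filter fun t : Fin m → ZMod q => glue hm j z t ∈ A)).card : ℝ) * (q : ℝ) ^ m =
      (q : ℝ) ^ n * (univ.filter fun t : Fin m → ZMod q => glue hm j z t ∈ A).card := by
    exact_mod_cast h1
  have h2 := hθ j j.2 z
  have hqm : (0 : ℝ) < (q : ℝ) ^ m := by positivity
  refine le_of_mul_le_mul_right ?_ hqm
  rw [h1']
  calc (q : ℝ) ^ n * (univ.filter fun t : Fin m → ZMod q => glue hm j z t ∈ A).card ≤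
      (q : ℝ) ^ n * (θ * (q : ℝ) ^ m) := mul_le_mul_of_nonneg_left h2 (by positivity)
    _ = _ := by ring

/-- a single constant -/
theorem num_c (m : ℕ) (hm : 1 ≤ m) (Q β : ℝ) (hQ : 0 < Q) (hβ : 0 < β) :
    ∃ c : ℝ, 0 < c ∧ ∀ (n : ℕ) (X a : ℝ), 1 ≤ X → 0 ≤ a →
      (m ≤ n → Q * (2 : ℝ) ^ (a + 4 - β * (n / m : ℕ) / X) ≤ (2 : ℝ) ^ (a + 1 / c - c * n / X)) ∧
      (n < m → 1 ≤ (2 : ℝ) ^ (a + 1 / c - c * n / X)) := by
  set L : ℝ := max (Real.logb 2 Q) 0 with hL
  have hL0 : 0 ≤ L := le_max_right _ _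
  have hm' : (1 : ℝ) ≤ m := by exact_mod_cast hm
  set c : ℝ := min (β / (2 * m)) (1 / (4 + L + m)) with hc
  have hc0 : 0 < c := lt_min (by positivity) (by positivity)
  have hc1 : c ≤ β / (2 * m) := min_le_left _ _
  have hc2 : c ≤ 1 / (4 + L + m) := min_le_right _ _
  have hc3 : 4 + L + m ≤ 1 / c := by
    rw [le_div_iff₀ hc0]
    rw [le_div_iff₀ (by positivity)] at hc2
    linarith
  have hc4 : c ≤ 1 := by
    refine hc2.trans ?_
    rw [div_le_one (by positivity)]
    linarith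
  refine ⟨c, hc0, fun n X a hX ha => ⟨fun hmn => ?_, fun hnm => ?_⟩⟩
  · have hX0 : 0 < X := by linarith
    have hQ2 : Q ≤ (2 : ℝ) ^ L := by
      calc Q = (2 : ℝ) ^ (Real.logb 2 Q) := (Real.rpow_logb (by norm_num) (by norm_num) hQ).symm
        _ ≤ _ := Real.rpow_le_rpow_of_exponent_le (by norm_num) (le_max_left _ _)
    have h1 : Q * (2 : ℝ) ^ (a + 4 - β * (n / m : ℕ) / X) ≤
        (2 : ℝ) ^ (L + (a + 4 - β * (n / m : ℕ) / X)) := by
      rw [Real.rpow_add (by norm_num)]
      exact mul_le_mul_of_nonneg_right hQ2 (by positivity)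
    refine h1.trans (Real.rpow_le_rpow_of_exponent_le (by norm_num) ?_)
    have h2 : (n : ℝ) ≤ 2 * m * (n / m : ℕ) := by
      have h3 : n < (n / m + 1) * m := by
        have := Nat.lt_div_mul_add (a := n) (b := m) (by omega)
        nlinarith
      have h4 : 1 ≤ n / m := (Nat.one_le_div_iff (by omega)).2 hmn
      have h5 : n ≤ 2 * m * (n / m) := by nlinarith
      exact_mod_cast h5
    have h6 : c * n / X ≤ β * (n / m : ℕ) / X := by
      apply div_le_div_of_nonneg_right _ hX0.le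
      calc c * n ≤ β / (2 * m) * n := mul_le_mul_of_nonneg_right hc1 (Nat.cast_nonneg _)
        _ ≤ β / (2 * m) * (2 * m * (n / m : ℕ)) := mul_le_mul_of_nonneg_left h2 (by positivity)
        _ = β * (n / m : ℕ) := by field_simp
    linarith
  · apply Real.one_le_rpow (by norm_num)
    have hnm' : (n : ℝ) ≤ m := by exact_mod_cast hnm.le
    have h1 : c * n / X ≤ m := by
      rw [div_le_iff₀ (by linarith)]
      have : c * n ≤ 1 * n := mul_le_mul_of_nonneg_right hc4 (Nat.cast_nonneg _)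
      nlinarith
    linarith

theorem one_le_dKK {d w ℓ : ℕ} (hd : 1 ≤ d) (hw : 1 ≤ w) (hℓ : 1 ≤ ℓ) :
    (1 : ℝ) ≤ (d : ℝ) * Y347.CO.KK d w ℓ := by
  have h1 : 1 ≤ Y347.CO.KK d w ℓ := by
    rw [Y347.CO.KK]
    have : 0 < w * ℓ := Nat.mul_pos hw hℓ
    exact Nat.one_le_iff_ne_zero.2 (by positivity)
  exact_mod_cast Nat.mul_pos hd h1

/-- **Relative densities with a single constant.** -/
theorem rel_c (hm : 0 < m) {δ : ℝ} (hδ : 0 < δ) :
    ∃ c : ℝ, 0 < c ∧ ∀ (n w ℓ d : ℕ) (C : Circuit (ZMod q) w n), 1 ≤ w → 1 ≤ ℓ →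
      n + Nat.card C.Node ≤ 2 ^ ℓ → (∀ v, C.depth v ≤ d) → ∀ (o : C.Node)
      (F A : Finset (Fin n → ZMod q)), (∀ x, x ∈ F ↔ C.val o x = true) →
      (∀ j : ℕ, j < n / m → ∀ z : Fin n → ZMod q,
        ((univ.filter fun t : Fin m → ZMod q => glue hm j z t ∈ A).card : ℝ) ≤
          δ / 2 * (q : ℝ) ^ m) →
      ((A ∩ F).card : ℝ) ≤ δ * F.card + (q : ℝ) ^ n *
        (2 : ℝ) ^ (2 * ℓ + 1 / c - c * n / ((d + 1 : ℕ) * Y347.CO.KK (d + 1) w ℓ)) := by
  classical
  have hm' : (0 : ℝ) < m := by exact_mod_cast hm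
  obtain ⟨c, hc, h⟩ := num_c m hm (2 * m) (δ / 2 / 2) (by positivity) (by positivity)
  refine ⟨c, hc, fun n w ℓ d C hw hℓ hs hd o F A hF hA => ?_⟩
  have hX := one_le_dKK (d := d + 1) (by omega) hw hℓ
  obtain ⟨h1, h2⟩ := h n ((d + 1 : ℕ) * Y347.CO.KK (d + 1) w ℓ) (2 * ℓ) hX (by positivity)
  have hqn : (0 : ℝ) ≤ (q : ℝ) ^ n := by positivity
  rcases le_or_gt m n with hmn | hmn
  · have h3 := rel_blocks C hw hℓ hs hd o F A hF hm hmn (ε := δ / 2) (by positivity) hA
    have h4 := mul_le_mul_of_nonneg_left (h1 hmn) hqn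
    have e : δ / 2 + δ / 2 = δ := by ring
    rw [e] at h3
    linarith
  · have h3 : ((A ∩ F).card : ℝ) ≤ (q : ℝ) ^ n := by
      have := card_le_univ (A ∩ F)
      rw [Fintype.card_fun, ZMod.card, Fintype.card_fin] at this
      exact_mod_cast this
    have h4 := mul_le_mul_of_nonneg_left (h2 hmn) hqn
    have h5 : 0 ≤ δ * (F.card : ℝ) := by positivity
    linarith

end words

end Pool.Agent.Q102.CD
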